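import Pool.Agent.Y542.Approx

/-!
A computable structure of noncomputable rank which is not computably approximable.

`A` is the computably categorical structure of noncomputable Scott rank obtained from a computable
tree of finite sets. Its index set is `Δ¹₁`. If for each computable well-founded tree `T` the
computable sentence describing `A` up to the rank of `T` had a computable model not isomorphic to
`A`, then, by overspill (the set of the indices of well-founded trees is not `Σ¹₁`), there would be
a back-and-forth system along an ill-founded tree between `A` and a computable structure which is
not isomorphic to `A`: a contradiction. In the same way tuples of `A` satisfying the same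
computable formulas are automorphic; so if the rank of `A` were computable, then the orbits of `A`
would be `Δ¹₁`, which they are not.
-/

set_option autoImplicit false

namespace Pool.Agent.Results.MP_1cf0df_lc.NotApprox

open Pool.Agent.Y542

/-- There are a computable structure `A` (in the language with the binary relation symbols
`R_0, R_1, …`) of computable rank `ω₁^CK` and a computable infinitary sentence `φ` true in `A`
such that every computable model of `φ` is isomorphic to `A`. -/
theorem result : ∃ A : Pool.Agent.Helper941.Hyp.Struct Pool.Agent.Helper941.Hyp.ar2,
    CompOn Set.univ A ∧ NoncompRank A ∧
    ∃ φ : Fml 0, CompFml φ ∧ Sat Set.univ A φ Fin.elim0 ∧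
      ∀ (U : Set ℕ) (B : Pool.Agent.Helper941.Hyp.Struct Pool.Agent.Helper941.Hyp.ar2),
        CompOn U B → Sat U B φ Fin.elim0 → IsoOn A U B :=
  Pool.Agent.Y542.main

end Pool.Agent.Results.MP_1cf0df_lc.NotApprox
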